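import Pool.Agent.Lib.MP_a3e05c_co.S3N.Base
import Pool.Agent.Lib.MP_a3e05c_co.KL.CliqueUp
import Pool.Agent.Lib.MP_a3e05c_co.CA.Ud2
import Pool.Agent.Lib.MP_a3e05c_co.NCS.Delta

/-!
# EULER, block S3: the two numerical inequalities for `D ≥ 22`
-/

open Finset

namespace MP_a3e05c_co.KL

theorem s3n_pp (D : ℕ) (hD : 2 ≤ D) : (D : ℝ) * pp ((D : ℝ) - 1) (D - 1) =
    ∑ i ∈ Ico 2 D, gg ((D : ℝ) - 1) i := by
  have e1 : D - 1 + 1 = D := by omega
  have e2 : ((D - 1 : ℕ) : ℝ) + 1 = D := by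
    rw [Nat.cast_sub (by omega)]
    simp
  have hD0 : (D : ℝ) ≠ 0 := by
    have : D ≠ 0 := by omega
    exact_mod_cast this
  unfold pp
  rw [e1, e2, mul_div_cancel₀ _ hD0, range_eq_Ico, sum_eq_sum_Ico_succ_bot (by omega),
    sum_eq_sum_Ico_succ_bot (by omega), gg_zero, gg_one, zero_add, zero_add]

theorem s3n_Ud (D : ℕ) (hD : 2 ≤ D) : NCS.Ud D =
    D * Real.log (bb (D / 2)) + D * pp ((D : ℝ) - 1) (D - 1) := by
  rw [s3n_pp D hD]
  unfold NCS.Ud
  congr 1
  rw [mul_sum]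
  refine sum_congr rfl fun k _ => ?_
  unfold gg xx
  have e1 : (D : ℝ) - 1 + 2 - k = D - k + 1 := by ring
  rw [e1]
  ring

private theorem Large_log23 : Real.log 23 ≤ 3136 / 1000 := by
  have h2 := Real.log_two_lt_d9
  have h3 : Real.log (23 ^ 2 : ℝ) = 9 * Real.log 2 + Real.log (529 / 512) := by
    rw [show (23 ^ 2 : ℝ) = 2 ^ 9 * (529 / 512) by norm_num, Real.log_mul (by norm_num)
      (by norm_num), Real.log_pow]
    norm_num
  have h4 := Real.log_le_sub_one_of_pos (x := (529 / 512 : ℝ)) (by norm_num)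
  rw [Real.log_pow] at h3
  push_cast at h3
  linarith

private theorem Large_logpi : Real.log (Real.pi / 2) ≤ 46 / 100 := by
  rw [Real.log_le_iff_le_exp (by positivity)]
  have h := Real.sum_le_exp_of_nonneg (x := 46 / 100) (by norm_num) 4
  have h2 := Real.pi_lt_d4
  refine le_trans ?_ h
  norm_num [sum_range_succ, Nat.factorial]
  linarith

/-- bounds for `log (D + 1)` -/
theorem s3n_lg {x : ℝ} (hx : 22 ≤ x) : Real.log (x + 1) ≤ 3136 / 1000 + (x - 22) / 23 := by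
  have h1 := Real.log_le_sub_one_of_pos (x := (x + 1) / 23) (by linarith)
  rw [Real.log_div (by linarith) (by norm_num)] at h1
  have h2 := Large_log23
  linarith

theorem s3n_ell {x : ℝ} (hx : 22 ≤ x) : Real.log (Real.pi * (x + 1) / 2) =
    Real.log (Real.pi / 2) + Real.log (x + 1) ∧
    358 / 100 ≤ Real.log (Real.pi * (x + 1) / 2) ∧
    Real.log (Real.pi * (x + 1) / 2) ≤ Real.log (x + 1) + 46 / 100 := by
  have h1 : Real.log (Real.pi * (x + 1) / 2) = Real.log (Real.pi / 2) + Real.log (x + 1) := by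
    rw [← Real.log_mul (by positivity) (by linarith)]
    congr 1
    ring
  have h2 := NCS.log_pi_half
  have h3 := NCS.log_23
  have h4 : Real.log 23 ≤ Real.log (x + 1) := Real.log_le_log (by norm_num) (by linarith)
  have h5 := Large_logpi
  refine ⟨h1, ?_, ?_⟩
  · rw [h1]; linarith
  · rw [h1]; linarith

/-- `g ≥ 8 / 25` -/
theorem s3n_g {x : ℝ} (hx : 22 ≤ x) : 8 / 25 ≤ -(1 / 2) * Real.log (x / (2 * (x - 1))) := by
  have h1 : Real.log (x / (2 * (x - 1))) = -Real.log 2 - Real.log ((x - 1) / x) := by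
    have h2 : x / (2 * (x - 1)) = (2 * ((x - 1) / x))⁻¹ := by
      have : x - 1 ≠ 0 := by linarith
      field_simp
    rw [h2, Real.log_inv, Real.log_mul (by norm_num) (div_pos (by linarith) (by linarith)).ne']
    ring
  have h3 := Real.one_sub_inv_le_log_of_pos (x := (x - 1) / x)
    (div_pos (by linarith) (by linarith))
  have h4 : 1 - ((x - 1) / x)⁻¹ = -(1 / (x - 1)) := by
    have : x - 1 ≠ 0 := by linarith
    field_simp
    ring
  have h5 : 1 / (x - 1) ≤ 1 / 21 := one_div_le_one_div_of_le (by norm_num) (by linarith)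
  have h6 := Real.log_two_gt_d9
  rw [h1]
  rw [h4] at h3
  linarith

/-- the four facts on `A, β, p` -/
theorem s3n_facts {D : ℕ} (hD : Even D) (h22 : 22 ≤ D) :
    (D : ℝ) * (Real.log (bb (D / 2)) + pp ((D : ℝ) - 1) (D - 1)) ≤ NCS.mainR ((D : ℝ) + 1) +
      (Real.log ((D : ℝ) + 1) / 2 - 2 / 25) / (D + 1) ∧
    Real.log (PK (D + 1)) ≤ D * (Real.log (bb (D / 2)) + pp ((D : ℝ) - 1) (D - 1)) ∧
    -(1 / 2) * Real.log (Real.pi * ((D : ℝ) + 1) / 2) ≤ Real.log (bb (D / 2)) ∧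
    0 ≤ pp ((D : ℝ) - 1) (D - 1) := by
  have hU := s3n_Ud D (by omega)
  have e1 : (D : ℝ) * (Real.log (bb (D / 2)) + pp ((D : ℝ) - 1) (D - 1)) = NCS.Ud D := by
    rw [hU]; ring
  rw [e1]
  refine ⟨CA.Ud_le2 D hD (by omega), PK_le_Ud hD (by omega), ?_, ?_⟩
  · have h1 := CA.le_log_cb (D / 2)
    have h2 : ((D / 2 : ℕ) : ℝ) = D / 2 := by
      obtain ⟨K, hK⟩ := hD
      have h3 : D / 2 = K := by omega
      rw [h3, hK]
      push_cast
      ring
    rw [h2] at h1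
    have h4 : Real.pi * ((D : ℝ) / 2 + 1 / 2) = Real.pi * ((D : ℝ) + 1) / 2 := by ring
    rw [h4] at h1
    exact h1
  · apply pp_nonneg
    rw [Nat.cast_sub (by omega)]
    simp

theorem s3n_large_i {D : ℕ} (hD : Even D) (h22 : 22 ≤ D)
    (hRT : NCS.mainR ((D : ℝ) + 1) ≤ Real.log (PK (D + 1))) {T h : ℝ}
    (hh : h = AA D - Real.log (bb (D / 2)) - pp ((D : ℝ) - 1) (D - 1))
    (hT : AA D + D * h = -T) :
    Real.log (FF D 0 ((D : ℝ) / (D - 1))) ≤ -T - 2 * h +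
      2 * ((-(1 / 2) * Real.log ((D : ℝ) / (2 * (D - 1))) - pp ((D : ℝ) - 1) (D - 1)) /
        (D - 1)) := by
  obtain ⟨hf1, hf2, hf3, hf4⟩ := s3n_facts hD h22
  have hx : (22 : ℝ) ≤ D := by exact_mod_cast h22
  have hg := s3n_hpg (D := D) (by omega)
  have hlg := s3n_lg hx
  obtain ⟨_, _, hl⟩ := s3n_ell hx
  have hAA : AA D = Real.log (PK (D + 1)) / ((D : ℝ) + 1) := rfl
  set p := pp ((D : ℝ) - 1) (D - 1) with hp
  set β := Real.log (bb (D / 2)) with hβ
  set L := Real.log (PK (D + 1)) with hL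
  set g := -(1 / 2) * Real.log ((D : ℝ) / (2 * (D - 1))) with hgdef
  set l := Real.log (Real.pi * ((D : ℝ) + 1) / 2) with hldef
  set lg := Real.log ((D : ℝ) + 1) with hlgdef
  -- left-hand side
  have hF : Real.log (FF D 0 ((D : ℝ) / (D - 1))) ≤ -(222 / 1000) := by
    obtain ⟨K, hK⟩ := hD
    have hK2 : D = 2 * K := by omega
    have hKr : (D : ℝ) = 2 * K := by rw [hK2]; push_cast; ring
    have hK11 : (11 : ℝ) ≤ K := by linarith
    have h1 : FF D 0 ((D : ℝ) / (D - 1)) = BN K (1 / (2 * K - 1)) 0 := by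
      rw [hKr, hK2, s3n_FF]
      congr 1
      have : (2 * (K : ℝ) - 1) ≠ 0 := by linarith
      field_simp
    have hσ0 : 0 < 1 / (2 * (K : ℝ) - 1) := by
      apply one_div_pos.2
      linarith
    have hσ1 : 1 / (2 * (K : ℝ) - 1) ≤ 1 := by
      rw [div_le_one (by linarith)]
      linarith
    have h2 := s3n_bn_quad K hσ0.le hσ1
    rw [h1]
    have hpos : 0 < BN K (1 / (2 * K - 1)) 0 := bn_pos' K _ 0 hσ0.le hσ1
    have h3 : BN K (1 / (2 * K - 1)) 0 ≤ 51 / 64 := by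
      refine h2.trans ?_
      set t := 1 / (2 * (K : ℝ) - 1) with ht
      have hKt : (K : ℝ) * t = (1 + t) / 2 := by
        have h7 : (2 * (K : ℝ) - 1) * t = 1 := by
          rw [ht, mul_one_div_cancel]
          linarith
        linarith
      have e1 : 1 - (K : ℝ) * t / 2 + 3 / 16 * (K * (K - 1) * t ^ 2) =
          1 - (K * t) / 2 + 3 / 16 * ((K * t) * (K * t - t)) := by ring
      rw [e1, hKt]
      nlinarith
    calc Real.log (BN K (1 / (2 * K - 1)) 0) ≤ Real.log (51 / 64) := Real.log_le_log hpos h3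
      _ ≤ -(222 / 1000) := by
        rw [Real.log_le_iff_le_exp (by norm_num)]
        have h4 := Real.exp_bound' (x := 222 / 1000) (n := 3) (by norm_num) (by norm_num)
          (by norm_num)
        have h5 : Real.exp (222 / 1000 : ℝ) ≤ 64 / 51 := by
          refine h4.trans ?_
          norm_num [sum_range_succ, Nat.factorial]
        rw [Real.exp_neg, show (51 / 64 : ℝ) = (64 / 51)⁻¹ by norm_num]
        exact inv_anti₀ (Real.exp_pos _) h5
  -- right-hand side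
  have hgp : 0 ≤ 2 * ((g - p) / ((D : ℝ) - 1)) := by
    apply mul_nonneg (by norm_num)
    apply div_nonneg <;> linarith
  have hn : (0 : ℝ) < (D : ℝ) + 1 := by linarith
  have hAL : AA D * ((D : ℝ) + 1) = L := by
    rw [hAA, div_mul_cancel₀ _ hn.ne']
  have hTe : T = D * (β + p) - L := by
    have : T = -(AA D + D * h) := by linarith
    rw [this, hh, ← hAL]
    ring
  have hT1 : T * ((D : ℝ) + 1) ≤ lg / 2 - 2 / 25 := by
    have h1 : T ≤ (lg / 2 - 2 / 25) / (D + 1) := by rw [hTe]; linarith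
    rwa [le_div_iff₀ hn] at h1
  have hT0 : 0 ≤ T := by rw [hTe]; linarith
  have hhe : h * ((D : ℝ) + 1) = -T - β - p := by
    rw [hTe, hh, ← hAL]
    ring
  have hkey : -(222 / 1000) * ((D : ℝ) + 1) ≤ (-T - 2 * h) * ((D : ℝ) + 1) := by
    have e1 : (-T - 2 * h) * ((D : ℝ) + 1) = -(T * (D + 1)) - 2 * (h * (D + 1)) := by ring
    rw [e1, hhe]
    linarith
  have := le_of_mul_le_mul_right hkey hn
  linarith

theorem s3n_large_ii {D : ℕ} (hD : Even D) (h22 : 22 ≤ D)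
    (hRT : NCS.mainR ((D : ℝ) + 1) ≤ Real.log (PK (D + 1))) {T h : ℝ}
    (hT : AA D + D * h = -T) :
    Real.log (FF D 0 ((D : ℝ) ^ 2 / (2 * (D - 1)))) ≤ -T - D * h +
      D * ((-(1 / 2) * Real.log ((D : ℝ) / (2 * (D - 1))) - pp ((D : ℝ) - 1) (D - 1)) /
        (D - 1)) := by
  obtain ⟨hf1, hf2, hf3, hf4⟩ := s3n_facts hD h22
  have hx : (22 : ℝ) ≤ D := by exact_mod_cast h22
  have hg := s3n_g hx
  have hlg := s3n_lg hx
  obtain ⟨_, hl, _⟩ := s3n_ell hx
  have hAA : AA D = Real.log (PK (D + 1)) / ((D : ℝ) + 1) := rfl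
  -- upper bound for the left-hand side
  have hF : Real.log (FF D 0 ((D : ℝ) ^ 2 / (2 * (D - 1)))) ≤ Real.log (bb (D / 2)) -
      (1 / 2) * Real.log (((D : ℝ) ^ 2 - 2) / (2 * (D - 1) ^ 2)) -
      Real.log (1 - 2 * ((D : ℝ) - 2) / D ^ 2) := by
    obtain ⟨K₀, hK₀⟩ := hD
    obtain ⟨K, rfl⟩ : ∃ K, K₀ = K + 1 := ⟨K₀ - 1, by omega⟩
    have hK2 : D = 2 * (K + 1) := by omega
    have hKr : (D : ℝ) = 2 * (K + 1) := by rw [hK2]; push_cast; ring
    have hK10 : (10 : ℝ) ≤ K := by linarith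
    set σ : ℝ := ((K : ℝ) + 1) / (2 * K + 1) with hσ
    have hσ0 : 0 < σ := by positivity
    have hσ1 : σ ≤ 1 := by
      rw [hσ, div_le_one (by positivity)]
      linarith
    have h1 : FF D 0 ((D : ℝ) ^ 2 / (2 * (D - 1))) = BN (K + 1) σ 0 := by
      rw [hKr, hK2, s3n_FF]
      congr 1
      rw [hσ]
      push_cast
      have e1 : (2 * ((K : ℝ) + 1) - 1) = 2 * K + 1 := by ring
      rw [e1]
      field_simp
    have h2 := s3n_bn K hσ0 hσ1
    have h3 : 1 - (1 - σ) / (σ * ((K : ℝ) + 1)) = 1 - 2 * ((D : ℝ) - 2) / D ^ 2 := by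
      rw [hσ, hKr]
      field_simp
      ring
    rw [h3] at h2
    have hu : 0 < 1 - 2 * ((D : ℝ) - 2) / D ^ 2 := by
      rw [sub_pos, div_lt_one (by positivity)]
      nlinarith
    have hpos := bn_pos' (K + 1) σ 0 hσ0.le hσ1
    have h4 : BN K σ 1 ≤ bb (D / 2) * (1 / Real.sqrt (((D : ℝ) ^ 2 - 2) / (2 * (D - 1) ^ 2))) := by
      have hy0 : 0 ≤ 2 * (K : ℝ) * (1 - σ) := by
        apply mul_nonneg (by positivity)
        linarith
      have hy1 : 2 * (K : ℝ) * (1 - σ) < ((D : ℕ) : ℝ) - 1 := by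
        rw [hKr]
        nlinarith
      have h5 := FF_le_G (d := D) (k := 2 * K + 1) (by rw [hK2]; exact even_two_mul _) (by omega)
        hy0 hy1
      have e2 : D - (2 * K + 1) = 1 := by omega
      rw [e2, s3n_FF_odd] at h5
      have e3 : (((2 * K + 1 : ℕ) : ℝ) - 2 * (K : ℝ) * (1 - σ) - 1) / (2 * K) = σ := by
        push_cast
        field_simp
        ring
      have e4 : 1 - 2 * (K : ℝ) * (1 - σ) / ((D : ℝ) - 1) = ((D : ℝ) ^ 2 - 2) / (2 * (D - 1) ^ 2) := by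
        rw [hσ, hKr]
        have e5 : (2 * ((K : ℝ) + 1) - 1) = 2 * K + 1 := by ring
        rw [e5]
        field_simp
        ring
      rw [e3, e4] at h5
      exact h5
    have hz : 0 < ((D : ℝ) ^ 2 - 2) / (2 * (D - 1) ^ 2) := by
      apply div_pos
      · nlinarith
      · have : 0 < (D : ℝ) - 1 := by linarith
        positivity
    have h6 := Real.log_le_log (mul_pos hpos hu) (h2.trans h4)
    rw [Real.log_mul hpos.ne' hu.ne', Real.log_mul (bb_pos _).ne'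
      (one_div_pos.2 (Real.sqrt_pos.2 hz)).ne', one_div, Real.log_inv, Real.log_sqrt hz.le] at h6
    rw [h1]
    linarith
  have hx1 : (0 : ℝ) < (D : ℝ) - 1 := by linarith
  -- logarithms of the rational factors
  have hz : Real.log (((D : ℝ) ^ 2 - 2) / (2 * (D - 1) ^ 2)) =
      Real.log ((D : ℝ) / (2 * (D - 1))) + Real.log (((D : ℝ) ^ 2 - 2) / (D * (D - 1))) := by
    rw [← Real.log_mul (by positivity)]
    · congr 1
      field_simp
    · apply ne_of_gt
      apply div_pos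
      · nlinarith
      · positivity
  have hv : ((D : ℝ) - 2) / ((D : ℝ) ^ 2 - 2) ≤ Real.log (((D : ℝ) ^ 2 - 2) / (D * (D - 1))) := by
    have h1 : 0 < (D : ℝ) ^ 2 - 2 := by nlinarith
    have h2 := Real.one_sub_inv_le_log_of_pos (x := ((D : ℝ) ^ 2 - 2) / (D * (D - 1)))
      (div_pos h1 (by positivity))
    refine le_trans (le_of_eq ?_) h2
    rw [inv_div, eq_sub_iff_add_eq, ← add_div, div_eq_one_iff_eq h1.ne']
    ring
  have hu : -(2 / (D : ℝ)) ≤ Real.log (1 - 2 * ((D : ℝ) - 2) / D ^ 2) := by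
    have h1 : 0 < 1 - 2 * ((D : ℝ) - 2) / D ^ 2 := by
      rw [sub_pos, div_lt_one (by positivity)]
      nlinarith
    have h2 := Real.one_sub_inv_le_log_of_pos h1
    refine le_trans ?_ h2
    have h3 : 1 - 2 * ((D : ℝ) - 2) / D ^ 2 = (D ^ 2 - 2 * D + 4) / D ^ 2 := by
      field_simp
      ring
    have h4 : 0 < (D : ℝ) ^ 2 - 2 * D + 4 := by nlinarith
    rw [h3, inv_div, neg_le_sub_iff_le_add, div_le_iff₀ h4]
    have h5 : (1 + 2 / (D : ℝ)) * ((D : ℝ) ^ 2 - 2 * D + 4) = D ^ 2 + 8 / D := by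
      field_simp
      ring
    rw [h5]
    have : 0 ≤ 8 / (D : ℝ) := by positivity
    linarith
  rw [hz] at hF
  set p := pp ((D : ℝ) - 1) (D - 1) with hp
  set β := Real.log (bb (D / 2)) with hβ
  set L := Real.log (PK (D + 1)) with hL
  set lx := Real.log ((D : ℝ) / (2 * (D - 1))) with hlx
  set l := Real.log (Real.pi * ((D : ℝ) + 1) / 2) with hldef
  set lg := Real.log ((D : ℝ) + 1) with hlgdef
  set lv := Real.log (((D : ℝ) ^ 2 - 2) / (D * (D - 1))) with hlv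
  have hmR : NCS.mainR ((D : ℝ) + 1) = lg / 2 - 1 / 2 - D / 2 * l := by
    unfold NCS.mainR
    rw [← hlgdef, ← hldef]
    ring
  set m := NCS.mainR ((D : ℝ) + 1) with hm
  have hn : (0 : ℝ) < (D : ℝ) + 1 := by linarith
  have hAL : AA D * ((D : ℝ) + 1) = L := by
    rw [hAA, div_mul_cancel₀ _ hn.ne']
  have hRHS : -T - D * h + D * ((-(1 / 2) * lx - p) / (D - 1)) =
      AA D + D * ((-(1 / 2) * lx - p) / (D - 1)) := by linarith
  rw [hRHS]
  refine hF.trans ?_
  -- multiply by `D ^ 2 - 1`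
  have hf1' : (D : ℝ) * (β + p) * (D + 1) ≤ m * (D + 1) + (lg / 2 - 2 / 25) := by
    have h1 : (D : ℝ) * (β + p) * (D + 1) ≤ (m + (lg / 2 - 2 / 25) / (D + 1)) * (D + 1) :=
      mul_le_mul_of_nonneg_right hf1 hn.le
    rwa [add_mul, div_mul_cancel₀ _ hn.ne'] at h1
  have hpos : (0 : ℝ) < (D - 1) * (D + 1) := by positivity
  refine le_of_mul_le_mul_right ?_ hpos
  have e1 : (AA D + D * ((-(1 / 2) * lx - p) / (D - 1))) * ((D - 1) * (D + 1)) =
      L * (D - 1) + D * (-(1 / 2) * lx - p) * (D + 1) := by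
    rw [← hAL]
    field_simp
  rw [e1]
  have h1 : (D : ℝ) - 2 ≤ lv * ((D - 1) * (D + 1)) := by
    have h2 : 0 < (D : ℝ) ^ 2 - 2 := by nlinarith
    rw [div_le_iff₀ h2] at hv
    have h3 : 0 ≤ lv := by
      rw [hlv]
      apply Real.log_nonneg
      rw [le_div_iff₀ (by positivity)]
      nlinarith
    nlinarith
  have h2 : -(2 * (D : ℝ)) ≤ Real.log (1 - 2 * ((D : ℝ) - 2) / D ^ 2) * ((D - 1) * (D + 1)) := by
    have h3 : -(2 / (D : ℝ)) * ((D - 1) * (D + 1)) ≤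
        Real.log (1 - 2 * ((D : ℝ) - 2) / D ^ 2) * ((D - 1) * (D + 1)) :=
      mul_le_mul_of_nonneg_right hu hpos.le
    refine le_trans ?_ h3
    have h4 : -(2 / (D : ℝ)) * ((D - 1) * (D + 1)) = -(2 * D) + 2 / D := by
      field_simp
      ring
    rw [h4]
    have : 0 ≤ 2 / (D : ℝ) := by positivity
    linarith
  have h3 : 8 / 25 * ((D : ℝ) + 1) ≤ -(1 / 2) * lx * (D + 1) :=
    mul_le_mul_of_nonneg_right hg hn.le
  have h4 : m * ((D : ℝ) - 1) ≤ L * (D - 1) := mul_le_mul_of_nonneg_right hRT hx1.le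
  have h5 : (D : ℝ) * (l - 358 / 100) ≥ 22 * (l - 358 / 100) :=
    mul_le_mul_of_nonneg_right hx (by linarith)
  have h6 : -(1 / 2) * l * ((D : ℝ) + 1) ≤ β * (D + 1) := mul_le_mul_of_nonneg_right hf3 hn.le
  rw [hmR] at h4 hf1'
  nlinarith
end MP_a3e05c_co.KL
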