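import Pool.Agent.Lib.MP_a3e05c_co.S3N.Base
import Pool.Agent.Lib.MP_a3e05c_co.NUM.FMn

/-!
# EULER, block S3: the two numerical inequalities for `6 ≤ D ≤ 20`
-/

open Finset

namespace MP_a3e05c_co.KL

open NUM (lgL lgU cbN)

/-- numerator of `BN K (p / q) 0`, the terms `m < j` -/
def s3q (p q K : ℕ) : ℕ → ℕ
  | 0 => 0
  | j + 1 => s3q p q K j + Nat.choose K j * (q - p) ^ (K - j) * p ^ j * (cbN j * 4 ^ (K - j))

theorem s3n_BN_q {p q : ℕ} (hp : p ≤ q) (hq : 0 < q) (K : ℕ) :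
    BN K ((p : ℝ) / q) 0 = (s3q p q K (K + 1) : ℝ) / ((q ^ K * 4 ^ K : ℕ) : ℝ) := by
  have hq' : (q : ℝ) ≠ 0 := by exact_mod_cast hq.ne'
  have h1 : ∀ j ≤ K + 1, ((s3q p q K j : ℕ) : ℝ) / ((q ^ K * 4 ^ K : ℕ) : ℝ) =
      ∑ m ∈ range j, (K.choose m : ℝ) * (1 - (p : ℝ) / q) ^ (K - m) * ((p : ℝ) / q) ^ m *
        bb (0 + m) := by
    intro j
    induction j with
    | zero => intro _; simp [s3q]
    | succ j ih =>
      intro hj
      rw [sum_range_succ, ← ih (by omega)]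
      show (((s3q p q K j + Nat.choose K j * (q - p) ^ (K - j) * p ^ j *
        (cbN j * 4 ^ (K - j)) : ℕ)) : ℝ) / ((q ^ K * 4 ^ K : ℕ) : ℝ) = _
      push_cast [Nat.cast_sub hp]
      rw [add_div]
      congr 1
      obtain ⟨i, hi⟩ : ∃ i, K = j + i := ⟨K - j, by omega⟩
      have hi' : K - j = i := by omega
      unfold bb
      rw [hi', NUM.cbN_eq, zero_add]
      have e1 : (1 - (p : ℝ) / q) = ((q : ℝ) - p) / q := by field_simp
      rw [e1, div_pow, div_pow]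
      have e2 : (q : ℝ) ^ K = q ^ j * q ^ i := by rw [hi, pow_add]
      have e3 : (4 : ℝ) ^ K = 4 ^ j * 4 ^ i := by rw [hi, pow_add]
      rw [e2, e3]
      field_simp
  unfold BN
  rw [h1 (K + 1) le_rfl]

/-- upper bound of `2 * S * ∑ gg` -/
def s3s (D : ℕ) : ℕ → ℕ
  | 0 => 0
  | j + 1 => s3s D j + lgU ((D - 1) ^ 2 * (D - 1 - j)) ((D - 1) ^ 2 * (D - 1 - j) -
      (j + 2) * (j + 1))

private theorem Small_real {x y : ℝ} (hx : 0 ≤ x) (hy : 0 ≤ y) :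
    1 - (x + 2) * (x + 1) / ((x + 2 + y) ^ 2 * (y + 2)) =
      ((x + 2 + y) ^ 2 * (y + 2) / ((x + 2 + y) ^ 2 * (y + 2) - (x + 2) * (x + 1)))⁻¹ := by
  have hp : 0 < (x + 2 + y) ^ 2 * (y + 2) := by positivity
  rw [inv_div, sub_div, div_self hp.ne']

private theorem Small_gg {D j : ℕ} (hj : j + 3 ≤ D) :
    gg ((D : ℝ) - 1) (j + 2) ≤ (lgU ((D - 1) ^ 2 * (D - 1 - j)) ((D - 1) ^ 2 * (D - 1 - j) -
      (j + 2) * (j + 1)) : ℝ) / (2 * NUM.S) := by
  have hS := NUM.S_pos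
  obtain ⟨i, rfl⟩ : ∃ i, D = j + 3 + i := ⟨D - (j + 3), by omega⟩
  have e1 : j + 3 + i - 1 = j + 2 + i := by omega
  have e2 : j + 3 + i - 1 - j = i + 2 := by omega
  rw [e2, e1]
  have h1 : (j + 2) * (j + 1) < (j + 2 + i) ^ 2 * (i + 2) := by
    have h2 : (j + 2) * (j + 1) < (j + 2) ^ 2 := by nlinarith
    have h3 : (j + 2) ^ 2 ≤ (j + 2 + i) ^ 2 := Nat.pow_le_pow_left (by omega) 2
    have h4 : (j + 2 + i) ^ 2 * 1 ≤ (j + 2 + i) ^ 2 * (i + 2) := Nat.mul_le_mul_left _ (by omega)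
    omega
  have h5 := NUM.le_lgU (a := (j + 2 + i) ^ 2 * (i + 2))
    (b := (j + 2 + i) ^ 2 * (i + 2) - (j + 2) * (j + 1)) (by omega) (by omega)
  have h2S : 0 < 2 * (NUM.S : ℝ) := by linarith
  rw [le_div_iff₀ h2S]
  refine le_trans (le_of_eq ?_) h5
  rw [Nat.cast_sub h1.le]
  unfold gg xx
  push_cast
  have e3 : ((j : ℝ) + 3 + i - 1) = j + 2 + i := by ring
  have e4 : ((j : ℝ) + 2 + i + 2 - (j + 2)) = i + 2 := by ring
  have e5 : ((j : ℝ) + 2 - 1) = j + 1 := by ring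
  rw [e3, e4, e5]
  have h7 := Small_real (Nat.cast_nonneg (α := ℝ) j) (Nat.cast_nonneg (α := ℝ) i)
  rw [h7, Real.log_inv]
  ring

theorem s3n_s {D : ℕ} (hD : 3 ≤ D) : (D : ℝ) * pp ((D : ℝ) - 1) (D - 1) ≤
    (s3s D (D - 2) : ℝ) / (2 * NUM.S) := by
  have hS := NUM.S_pos
  have e1 : D - 1 + 1 = D := by omega
  have e2 : ((D - 1 : ℕ) : ℝ) + 1 = D := by
    rw [Nat.cast_sub (by omega)]
    simp
  have hD0 : (D : ℝ) ≠ 0 := by
    have : D ≠ 0 := by omega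
    exact_mod_cast this
  have h1 : ∀ j, j + 2 ≤ D → ∑ i ∈ range (j + 2), gg ((D : ℝ) - 1) i ≤
      (s3s D j : ℝ) / (2 * NUM.S) := by
    intro j
    induction j with
    | zero =>
      intro _
      rw [zero_add, sum_range_succ, sum_range_one, gg_zero, gg_one]
      simp [s3s]
    | succ j ih =>
      intro hj
      rw [show j + 1 + 2 = (j + 2) + 1 by ring, sum_range_succ]
      have h2 := ih (by omega)
      have h3 := Small_gg (D := D) (j := j) (by omega)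
      show _ ≤ ((s3s D j + lgU ((D - 1) ^ 2 * (D - 1 - j)) ((D - 1) ^ 2 * (D - 1 - j) -
        (j + 2) * (j + 1)) : ℕ) : ℝ) / (2 * NUM.S)
      rw [Nat.cast_add, add_div]
      linarith
  have h2 := h1 (D - 2) (by omega)
  rw [show D - 2 + 2 = D by omega] at h2
  unfold pp
  rw [e1, e2, mul_div_cancel₀ _ hD0]
  exact h2

/-- the check for one value of `D`, `r` a lower bound for `RT (D + 1)` -/
def S3chk (D r : ℕ) : Prop :=
  6 ≤ D ∧ D % 2 = 0 ∧ 0 < r ∧ r ≤ 2 ^ ((D + 1) * D / 2) ∧ cbN (D / 2) ≤ 4 ^ (D / 2) ∧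
  0 < s3q 1 (D - 1) (D / 2) (D / 2 + 1) ∧
  s3q 1 (D - 1) (D / 2) (D / 2 + 1) ≤ (D - 1) ^ (D / 2) * 4 ^ (D / 2) ∧
  0 < s3q D (2 * (D - 1)) (D / 2) (D / 2 + 1) ∧
  s3q D (2 * (D - 1)) (D / 2) (D / 2 + 1) ≤ (2 * (D - 1)) ^ (D / 2) * 4 ^ (D / 2) ∧
  (D - 1) * lgU (2 ^ ((D + 1) * D / 2)) r * (2 * D * (D - 1)) +
      s3s D (D - 2) * ((D - 2) * (D - 1) + 2) * (D + 1) ≤
    2 * D * (D - 1) * (D + 1) *
        lgL ((D - 1) ^ (D / 2) * 4 ^ (D / 2)) (s3q 1 (D - 1) (D / 2) (D / 2 + 1)) +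
      (D - 2) * lgL (4 ^ (D / 2)) (cbN (D / 2)) * (2 * D * (D - 1) * (D + 1)) +
      lgL (2 * (D - 1)) D * (2 * D * (D + 1)) ∧
  2 * (D - 1) * lgU (2 ^ ((D + 1) * D / 2)) r + (D + 1) * s3s D (D - 2) ≤
    2 * (D - 1) * (D + 1) *
        lgL ((2 * (D - 1)) ^ (D / 2) * 4 ^ (D / 2)) (s3q D (2 * (D - 1)) (D / 2) (D / 2 + 1)) +
      D * (D + 1) * lgL (2 * (D - 1)) D

instance (D r : ℕ) : Decidable (S3chk D r) := by
  unfold S3chk
  infer_instance

theorem s3n_small {D r : ℕ} (hr : r ≤ RT (D + 1)) (hc : S3chk D r) {T h : ℝ}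
    (hh : h = AA D - Real.log (bb (D / 2)) - pp ((D : ℝ) - 1) (D - 1))
    (hT : AA D + D * h = -T) :
    Real.log (FF D 0 ((D : ℝ) / (D - 1))) ≤ -T - 2 * h +
      2 * ((-(1 / 2) * Real.log ((D : ℝ) / (2 * (D - 1))) - pp ((D : ℝ) - 1) (D - 1)) /
        (D - 1)) ∧
    Real.log (FF D 0 ((D : ℝ) ^ 2 / (2 * (D - 1)))) ≤ -T - D * h +
      D * ((-(1 / 2) * Real.log ((D : ℝ) / (2 * (D - 1))) - pp ((D : ℝ) - 1) (D - 1)) /
        (D - 1)) := by
  obtain ⟨h6, hev, hr0, hr1, hcb, hq1, hq1', hq2, hq2', hc1, hc2⟩ := hc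
  have hS := NUM.S_pos
  have hx : (6 : ℝ) ≤ D := by exact_mod_cast h6
  have hD1 : ((D - 1 : ℕ) : ℝ) = (D : ℝ) - 1 := by
    rw [Nat.cast_sub (by omega)]; simp
  have hD2 : ((D - 2 : ℕ) : ℝ) = (D : ℝ) - 2 := by
    rw [Nat.cast_sub (by omega)]; simp
  have hx1 : (0 : ℝ) < (D : ℝ) - 1 := by linarith
  have hx2 : (0 : ℝ) < (D : ℝ) + 1 := by linarith
  -- `a`
  have ha : -(lgU (2 ^ ((D + 1) * D / 2)) r : ℝ) / NUM.S ≤ Real.log (PK (D + 1)) := by
    have h1 := NUM.le_lgU hr0 hr1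
    have h2 : (0 : ℝ) < r := by exact_mod_cast hr0
    have h3 : (r : ℝ) ≤ RT (D + 1) := by exact_mod_cast hr
    have h4 : Real.log ((r : ℝ) / 2 ^ ((D + 1) * D / 2)) ≤ Real.log (PK (D + 1)) := by
      apply Real.log_le_log (by positivity)
      unfold PK
      rw [show (D + 1) * (D + 1 - 1) / 2 = (D + 1) * D / 2 by rfl]
      exact div_le_div_of_nonneg_right h3 (by positivity)
    refine le_trans ?_ h4
    rw [div_le_iff₀ hS]
    have h5 : (r : ℝ) / 2 ^ ((D + 1) * D / 2) = (((2 ^ ((D + 1) * D / 2) : ℕ) : ℝ) / r)⁻¹ := by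
      push_cast
      rw [inv_div]
    rw [h5, Real.log_inv]
    linarith
  -- `b`
  have hb : Real.log (bb (D / 2)) ≤ -(lgL (4 ^ (D / 2)) (cbN (D / 2)) : ℝ) / NUM.S := by
    have h0 : 0 < cbN (D / 2) := by
      rw [NUM.cbN_eq]
      exact Nat.centralBinom_pos _
    have h1 := NUM.lgL_le h0 hcb
    have h5 : bb (D / 2) = (((4 ^ (D / 2) : ℕ) : ℝ) / (cbN (D / 2)))⁻¹ := by
      rw [NUM.cbN_eq]
      unfold bb
      push_cast
      rw [inv_div]
    rw [le_div_iff₀ hS, h5, Real.log_inv]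
    linarith
  have hs := s3n_s (D := D) (by omega)
  -- `g`
  have hg : (lgL (2 * (D - 1)) D : ℝ) / (2 * NUM.S) ≤
      -(1 / 2) * Real.log ((D : ℝ) / (2 * (D - 1))) := by
    have h1 := NUM.lgL_le (a := 2 * (D - 1)) (b := D) (by omega) (by omega)
    have h5 : (D : ℝ) / (2 * (D - 1)) = (((2 * (D - 1) : ℕ) : ℝ) / D)⁻¹ := by
      push_cast
      rw [hD1, inv_div]
    rw [div_le_iff₀ (by positivity), h5, Real.log_inv]
    linarith
  -- `F`
  have hK : D = 2 * (D / 2) := by omega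
  have hKr : (D : ℝ) = 2 * ((D / 2 : ℕ) : ℝ) := by exact_mod_cast hK
  have hf1 : Real.log (FF D 0 ((D : ℝ) / (D - 1))) ≤
      -(lgL ((D - 1) ^ (D / 2) * 4 ^ (D / 2)) (s3q 1 (D - 1) (D / 2) (D / 2 + 1)) : ℝ) /
        NUM.S := by
    have h1 := NUM.lgL_le hq1 hq1'
    have h2 : FF D 0 ((D : ℝ) / (D - 1)) = BN (D / 2) (((1 : ℕ) : ℝ) / ((D - 1 : ℕ) : ℝ)) 0 := by
      have h3 : FF D 0 ((D : ℝ) / (D - 1)) = FF (2 * (D / 2)) 0 ((D : ℝ) / (D - 1)) := by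
        rw [← hK]
      rw [h3, s3n_FF, ← hKr, hD1]
      congr 1
      push_cast
      field_simp
    have h5 : FF D 0 ((D : ℝ) / (D - 1)) = ((((D - 1) ^ (D / 2) * 4 ^ (D / 2) : ℕ) : ℝ) /
        (s3q 1 (D - 1) (D / 2) (D / 2 + 1)))⁻¹ := by
      rw [h2, s3n_BN_q (by omega) (by omega), inv_div]
    rw [le_div_iff₀ hS, h5, Real.log_inv]
    linarith
  have hf2 : Real.log (FF D 0 ((D : ℝ) ^ 2 / (2 * (D - 1)))) ≤
      -(lgL ((2 * (D - 1)) ^ (D / 2) * 4 ^ (D / 2)) (s3q D (2 * (D - 1)) (D / 2) (D / 2 + 1)) :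
        ℝ) / NUM.S := by
    have h1 := NUM.lgL_le hq2 hq2'
    have h2 : FF D 0 ((D : ℝ) ^ 2 / (2 * (D - 1))) =
        BN (D / 2) ((D : ℝ) / ((2 * (D - 1) : ℕ) : ℝ)) 0 := by
      have h3 : FF D 0 ((D : ℝ) ^ 2 / (2 * (D - 1))) =
          FF (2 * (D / 2)) 0 ((D : ℝ) ^ 2 / (2 * (D - 1))) := by
        rw [← hK]
      rw [h3, s3n_FF, ← hKr]
      congr 1
      push_cast
      rw [hD1]
      field_simp
    have h5 : FF D 0 ((D : ℝ) ^ 2 / (2 * (D - 1))) =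
        ((((2 * (D - 1)) ^ (D / 2) * 4 ^ (D / 2) : ℕ) : ℝ) /
        (s3q D (2 * (D - 1)) (D / 2) (D / 2 + 1)))⁻¹ := by
      rw [h2, s3n_BN_q (by omega) (by omega), inv_div]
    rw [le_div_iff₀ hS, h5, Real.log_inv]
    linarith
  -- real form of the two checks
  have hc1' := (Nat.cast_le (α := ℝ)).2 hc1
  have hc2' := (Nat.cast_le (α := ℝ)).2 hc2
  generalize lgU (2 ^ ((D + 1) * D / 2)) r = a at *
  generalize lgL (4 ^ (D / 2)) (cbN (D / 2)) = b at *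
  generalize s3s D (D - 2) = s at *
  generalize lgL (2 * (D - 1)) D = g at *
  generalize lgL ((D - 1) ^ (D / 2) * 4 ^ (D / 2)) (s3q 1 (D - 1) (D / 2) (D / 2 + 1)) = f1 at *
  generalize lgL ((2 * (D - 1)) ^ (D / 2) * 4 ^ (D / 2))
    (s3q D (2 * (D - 1)) (D / 2) (D / 2 + 1)) = f2 at *
  push_cast at hc1' hc2'
  rw [hD1] at hc1' hc2'
  rw [hD2] at hc1'
  have hAA : AA D = Real.log (PK (D + 1)) / ((D : ℝ) + 1) := rfl
  have hAL : Real.log (PK (D + 1)) = AA D * ((D : ℝ) + 1) := by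
    rw [hAA, div_mul_cancel₀ _ hx2.ne']
  rw [hAL] at ha
  have hTe : -T = AA D + D * h := hT.symm
  set p := pp ((D : ℝ) - 1) (D - 1) with hp
  set β := Real.log (bb (D / 2)) with hβ
  set G := -(1 / 2) * Real.log ((D : ℝ) / (2 * (D - 1))) with hG
  set A := AA D with hA
  set S := (NUM.S : ℝ) with hSdef
  set x := (D : ℝ) with hxdef
  rw [hTe]
  constructor
  · refine hf1.trans ?_
    rw [hh]
    have e1 : A + x * (A - β - p) - 2 * (A - β - p) + 2 * ((G - p) / (x - 1)) =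
        ((x - 1) * (A * (x + 1)) * (x * (x - 1)) - (x - 2) * β * (x * (x - 1) * (x + 1)) -
          x * p * ((x - 2) * (x - 1) + 2) * (x + 1) + 2 * G * (x * (x + 1))) /
          (x * (x - 1) * (x + 1)) := by
      field_simp
      ring
    rw [e1, div_le_div_iff₀ hS (by positivity)]
    have k1 : (x - 1) * (-(a : ℝ) / S) * (x * (x - 1)) ≤
        (x - 1) * (A * (x + 1)) * (x * (x - 1)) := by gcongr
    have k2 : (x - 2) * β * (x * (x - 1) * (x + 1)) ≤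
        (x - 2) * (-(b : ℝ) / S) * (x * (x - 1) * (x + 1)) := by
      have : 0 ≤ x - 2 := by linarith
      gcongr
    have k3 : x * p * ((x - 2) * (x - 1) + 2) * (x + 1) ≤
        (s : ℝ) / (2 * S) * ((x - 2) * (x - 1) + 2) * (x + 1) := by
      have : 0 ≤ x - 2 := by linarith
      gcongr
    have k4 : 2 * ((g : ℝ) / (2 * S)) * (x * (x + 1)) ≤ 2 * G * (x * (x + 1)) := by gcongr
    have k5 : -(f1 : ℝ) * (x * (x - 1) * (x + 1)) ≤
        ((x - 1) * (-(a : ℝ) / S) * (x * (x - 1)) -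
        (x - 2) * (-(b : ℝ) / S) * (x * (x - 1) * (x + 1)) -
        (s : ℝ) / (2 * S) * ((x - 2) * (x - 1) + 2) * (x + 1) +
        2 * ((g : ℝ) / (2 * S)) * (x * (x + 1))) * S := by
      have e2 : ((x - 1) * (-(a : ℝ) / S) * (x * (x - 1)) -
        (x - 2) * (-(b : ℝ) / S) * (x * (x - 1) * (x + 1)) -
        (s : ℝ) / (2 * S) * ((x - 2) * (x - 1) + 2) * (x + 1) +
        2 * ((g : ℝ) / (2 * S)) * (x * (x + 1))) * S =
        -(x - 1) * a * (x * (x - 1)) + (x - 2) * b * (x * (x - 1) * (x + 1)) -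
        s / 2 * ((x - 2) * (x - 1) + 2) * (x + 1) + g * (x * (x + 1)) := by
        field_simp
        ring
      rw [e2]
      linarith
    refine k5.trans ?_
    apply mul_le_mul_of_nonneg_right _ hS.le
    linarith
  · refine hf2.trans ?_
    have e1 : A + x * h - x * h + x * ((G - p) / (x - 1)) =
        (A * (x + 1) * (x - 1) + (x * G - x * p) * (x + 1)) / ((x - 1) * (x + 1)) := by
      field_simp
      ring
    rw [e1, div_le_div_iff₀ hS (by positivity)]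
    have k1 : (-(a : ℝ) / S) * (x - 1) ≤ A * (x + 1) * (x - 1) := by gcongr
    have k4 : x * ((g : ℝ) / (2 * S)) ≤ x * G := by gcongr
    have k3 : (x * ((g : ℝ) / (2 * S)) - (s : ℝ) / (2 * S)) * (x + 1) ≤
        (x * G - x * p) * (x + 1) := by gcongr
    have k5 : -(f2 : ℝ) * ((x - 1) * (x + 1)) ≤ ((-(a : ℝ) / S) * (x - 1) +
        (x * ((g : ℝ) / (2 * S)) - (s : ℝ) / (2 * S)) * (x + 1)) * S := by
      have e2 : ((-(a : ℝ) / S) * (x - 1) +
        (x * ((g : ℝ) / (2 * S)) - (s : ℝ) / (2 * S)) * (x + 1)) * S =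
        -(a : ℝ) * (x - 1) + (x * g - s) / 2 * (x + 1) := by
        field_simp
      rw [e2]
      linarith
    refine k5.trans ?_
    apply mul_le_mul_of_nonneg_right _ hS.le
    linarith

theorem s3chk_6 : S3chk 6 2640 := by decide +kernel

theorem s3chk_8 : S3chk 8 3230080 := by decide +kernel

theorem s3chk_10 : S3chk 10 48251508480 := by decide +kernel

theorem s3chk_12 : S3chk 12 9307700611292160 := by decide +kernel

theorem s3chk_14 : S3chk 14 24061983498249428379648 := by decide +kernel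

theorem s3chk_16 : S3chk 16 855847205541481495117975879680 := by decide +kernel

theorem s3chk_18 : S3chk 18 427102009099124449965536944854574242240 := by decide +kernel

theorem s3chk_20 : S3chk 20 3035890034606593848108396779148026682657839269520 := by
  decide +kernel

end MP_a3e05c_co.KL
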