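import Pool.Agent.Lib.MP_a3e05c_co.S3.Case2
import Pool.Agent.Lib.MP_a3e05c_co.S3N.Large
import Pool.Agent.Lib.MP_a3e05c_co.S3N.Small
import Pool.Agent.Lib.MP_a3e05c_co.RT.Final
import Pool.Agent.Lib.MP_a3e05c_co.RTK.Num

/-!
# EULER, block S3: the two numbers of `s3_core` for all even `D ≥ 6`
-/

open Finset

namespace MP_a3e05c_co.KL

theorem s3n_phi {D : ℕ} (hD : 2 ≤ D) : phi D (D - 1) =
    Real.log (bb (D / 2)) + pp ((D : ℝ) - 1) (D - 1) := by
  unfold phi pp ffp
  rw [if_pos (by omega), Finset.sum_add_distrib, Finset.sum_const, Finset.card_range,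
    nsmul_eq_mul]
  have h : (((D - 1 : ℕ) : ℝ) + 1) ≠ 0 := by positivity
  push_cast
  field_simp

theorem s3n_mainR {D : ℕ} (hD : Even D) (h : 22 ≤ D) :
    NCS.mainR ((D : ℝ) + 1) ≤ Real.log (PK (D + 1)) := by
  have h1 := RT.PK_low (D + 1) hD.add_one (by omega)
  rw [Real.le_log_iff_exp_le (PK_pos hD)]
  push_cast at h1
  exact h1

/-- **S3, numbers.** -/
theorem scS3 {D : ℕ} (hD : Even D) (h : 6 ≤ D) : ScS3 D := by
  have hphi := s3n_phi (D := D) (by omega)
  have hh : AA D - phi D (D - 1) = AA D - Real.log (bb (D / 2)) - pp ((D : ℝ) - 1) (D - 1) := by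
    rw [hphi]; ring
  have hT : AA D + D * (AA D - phi D (D - 1)) = -(-(AA D + D * (AA D - phi D (D - 1)))) := by
    ring
  rcases Nat.lt_or_ge D 22 with h22 | h22
  · have key : ∀ r : ℕ, r ≤ RT (D + 1) → S3chk D r → ScS3 D := by
      intro r hr hc
      obtain ⟨h1, h2⟩ := s3n_small hr hc hh hT
      refine ⟨?_, ?_⟩
      · rw [neg_neg] at h1
        exact h1
      · refine h2.trans (le_of_eq ?_)
        ring
    have hc : D = 6 ∨ D = 8 ∨ D = 10 ∨ D = 12 ∨ D = 14 ∨ D = 16 ∨ D = 18 ∨ D = 20 := by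
      obtain ⟨m, rfl⟩ := hD
      omega
    rcases hc with rfl | rfl | rfl | rfl | rfl | rfl | rfl | rfl
    · exact key _ RTK.RT_7 s3chk_6
    · exact key _ RTK.RT_9 s3chk_8
    · exact key _ RTK.RT_11 s3chk_10
    · exact key _ RTK.RT_13 s3chk_12
    · exact key _ RTK.RT_15 s3chk_14
    · exact key _ RTK.RT_17 s3chk_16
    · exact key _ RTK.RT_19 s3chk_18
    · exact key _ RTK.RT_21 s3chk_20
  · have hRT := s3n_mainR hD h22
    refine ⟨?_, ?_⟩
    · have h1 := s3n_large_i hD h22 hRT hh hT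
      rw [neg_neg] at h1
      exact h1
    · have h2 := s3n_large_ii hD h22 hRT hT
      refine h2.trans (le_of_eq ?_)
      ring

end MP_a3e05c_co.KL
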