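import Pool.Agent.Lib.MP_a3e05c_co.S3.Conv
import Pool.Agent.Lib.MP_a3e05c_co.S1.Basic
import Pool.Agent.Lib.MP_a3e05c_co.NCS.Chain

/-!
# EULER, block S3: the two numerical inequalities, preparations
-/

open Finset

namespace MP_a3e05c_co.KL

theorem s3n_FF (K : ℕ) (v : ℝ) : FF (2 * K) 0 v = BN K (v / (2 * K)) 0 := by
  unfold FF
  have h1 : 2 * K / 2 = K := by omega
  have h2 : 2 * K % 2 = 0 := by omega
  rw [h1, h2]
  simp

/-- `F` at the odd index `2 K + 1` with one free edge -/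
theorem s3n_FF_odd (K : ℕ) (v : ℝ) : FF (2 * K + 1) 1 v = BN K ((v - 1) / (2 * K)) 1 := by
  unfold FF
  have h1 : (2 * K + 1) / 2 = K := by omega
  have h2 : (2 * K + 1) % 2 = 1 := by omega
  rw [h1, h2]
  simp

/-- `bb m ≤ 2 bb (m + 1)` and `bb m - bb (m + 1) = bb m / (2 m + 2)` -/
theorem s3n_bb (m : ℕ) : ((m : ℝ) + 1) * (bb m - bb (m + 1)) ≤ bb (m + 1) := by
  have h := bb_succ m
  have h1 := bb_pos m
  have hm : (0 : ℝ) ≤ m := Nat.cast_nonneg m
  have h3 : ((m : ℝ) + 1) * (bb m - bb (m + 1)) = bb m / 2 := by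
    have h4 : bb (m + 1) * ((m : ℝ) + 1) = bb m * (2 * m + 1) / 2 := by linarith
    linarith
  rw [h3]
  have h5 : bb m * ((m : ℝ) + 1) ≤ bb m * (2 * m + 1) := by
    apply mul_le_mul_of_nonneg_left _ h1.le
    linarith
  have h6 : bb m / 2 * (2 * m + 2) ≤ bb (m + 1) * (2 * m + 2) := by linarith
  exact le_of_mul_le_mul_right h6 (by positivity)

/-- conditioning on one trial: `E bb (N)` for `K + 1` trials against `E bb (1 + N)` for `K` -/
theorem s3n_bn_step (K : ℕ) {σ : ℝ} (h0 : 0 < σ) (h1 : σ ≤ 1) :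
    σ * ((K : ℝ) + 1) * (BN K σ 0 - BN K σ 1) ≤ BN (K + 1) σ 0 := by
  unfold BN
  rw [← sum_sub_distrib, mul_sum, sum_range_succ' _ (K + 1)]
  have h2 : 0 ≤ ((K + 1).choose 0 : ℝ) * (1 - σ) ^ (K + 1 - 0) * σ ^ 0 * bb (0 + 0) := by
    have := (bb_pos (0 + 0)).le
    have h3 : 0 ≤ 1 - σ := by linarith
    positivity
  refine le_trans (sum_le_sum fun m hm => ?_) (le_add_of_nonneg_right h2)
  rw [mem_range] at hm
  have hc : ((K : ℝ) + 1) * (K.choose m : ℝ) = ((K + 1).choose (m + 1) : ℝ) * ((m : ℝ) + 1) := by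
    have := Nat.add_one_mul_choose_eq K m
    exact_mod_cast this
  have hb := s3n_bb m
  have h3 : 0 ≤ 1 - σ := by linarith
  have e1 : K + 1 - (m + 1) = K - m := by omega
  have e2 : 0 + (m + 1) = m + 1 := by omega
  have e3 : 1 + m = m + 1 := by omega
  rw [e1, e2, e3, zero_add]
  calc σ * ((K : ℝ) + 1) * ((K.choose m : ℝ) * (1 - σ) ^ (K - m) * σ ^ m * bb m -
        (K.choose m : ℝ) * (1 - σ) ^ (K - m) * σ ^ m * bb (m + 1))
      = (((K : ℝ) + 1) * (K.choose m : ℝ)) * (1 - σ) ^ (K - m) * σ ^ (m + 1) *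
          (bb m - bb (m + 1)) := by ring
    _ = ((K + 1).choose (m + 1) : ℝ) * (1 - σ) ^ (K - m) * σ ^ (m + 1) *
          (((m : ℝ) + 1) * (bb m - bb (m + 1))) := by rw [hc]; ring
    _ ≤ ((K + 1).choose (m + 1) : ℝ) * (1 - σ) ^ (K - m) * σ ^ (m + 1) * bb (m + 1) := by
        apply mul_le_mul_of_nonneg_left hb
        positivity

/-- `BN (K + 1) σ 0 (1 - (1 - σ) / (σ (K + 1))) ≤ BN K σ 1` -/
theorem s3n_bn (K : ℕ) {σ : ℝ} (h0 : 0 < σ) (h1 : σ ≤ 1) :
    BN (K + 1) σ 0 * (1 - (1 - σ) / (σ * ((K : ℝ) + 1))) ≤ BN K σ 1 := by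
  have h2 := bn_succ K σ 0
  have h3 := s3n_bn_step K h0 h1
  have hK : (0 : ℝ) < (K : ℝ) + 1 := by positivity
  have h4 : (1 - σ) * (BN K σ 0 - BN K σ 1) ≤ (1 - σ) * (BN (K + 1) σ 0 / (σ * ((K : ℝ) + 1))) := by
    apply mul_le_mul_of_nonneg_left _ (by linarith)
    rw [le_div_iff₀ (by positivity)]
    linarith
  have h5 : BN (K + 1) σ 0 * (1 - (1 - σ) / (σ * ((K : ℝ) + 1))) = BN (K + 1) σ 0 -
      (1 - σ) * (BN (K + 1) σ 0 / (σ * ((K : ℝ) + 1))) := by
    field_simp
  rw [h5]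
  rw [zero_add] at h2
  linarith

/-- `bb m ≤ 1 - m / 2 + (3 / 16) m (m - 1)` -/
theorem s3n_bb_quad (m : ℕ) : bb m ≤ 1 - (m : ℝ) / 2 + 3 / 16 * (m * (m - 1)) := by
  have hb0 : bb 0 = 1 := by simp [bb]
  have hb1 : bb 1 = 1 / 2 := by norm_num [bb, Nat.centralBinom, Nat.choose]
  have hb2 : bb 2 = 3 / 8 := by norm_num [bb, Nat.centralBinom, Nat.choose]
  rcases Nat.lt_or_ge m 2 with h | h
  · interval_cases m
    · rw [hb0]; norm_num
    · rw [hb1]; norm_num
  · induction m, h using Nat.le_induction with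
    | base => rw [hb2]; norm_num
    | succ m hm ih =>
      have h1 : bb (m + 1) ≤ bb m := by
        have h2 := bb_succ m
        have h3 := bb_pos m
        have h4 : bb (m + 1) * (2 * (m : ℝ) + 2) ≤ bb m * (2 * m + 2) := by
          rw [h2]
          apply mul_le_mul_of_nonneg_left _ h3.le
          linarith
        exact le_of_mul_le_mul_right h4 (by positivity)
      have hm' : (2 : ℝ) ≤ m := by exact_mod_cast hm
      push_cast
      nlinarith

/-- second factorial moment of the binomial distribution -/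
theorem s3n_bn_quad (K : ℕ) {σ : ℝ} (h0 : 0 ≤ σ) (h1 : σ ≤ 1) :
    BN K σ 0 ≤ 1 - K * σ / 2 + 3 / 16 * (K * (K - 1) * σ ^ 2) := by
  have hmom : ∀ K : ℕ, ∀ a b c : ℝ,
      ∑ m ∈ range (K + 1), (K.choose m : ℝ) * (1 - σ) ^ (K - m) * σ ^ m *
        (a + b * m + c * (m * (m - 1))) = a + b * (K * σ) + c * (K * (K - 1) * σ ^ 2) := by
    intro K
    induction K with
    | zero =>
      intro a b c
      simp
    | succ K ih =>
      intro a b c
      have hrec : ∀ f : ℕ → ℝ, ∑ m ∈ range (K + 1 + 1), ((K + 1).choose m : ℝ) *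
          (1 - σ) ^ (K + 1 - m) * σ ^ m * f m =
          (1 - σ) * ∑ m ∈ range (K + 1), (K.choose m : ℝ) * (1 - σ) ^ (K - m) * σ ^ m * f m +
          σ * ∑ m ∈ range (K + 1), (K.choose m : ℝ) * (1 - σ) ^ (K - m) * σ ^ m * f (m + 1) := by
        intro f
        have h2 : ∑ m ∈ range (K + 1), ((K + 1).choose (m + 1) : ℝ) *
            (1 - σ) ^ (K + 1 - (m + 1)) * σ ^ (m + 1) * f (m + 1) =
            σ * ∑ m ∈ range (K + 1), (K.choose m : ℝ) * (1 - σ) ^ (K - m) * σ ^ m * f (m + 1) +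
            ∑ m ∈ range (K + 1), (K.choose (m + 1) : ℝ) * (1 - σ) ^ (K - m) * σ ^ (m + 1) *
              f (m + 1) := by
          rw [mul_sum, ← sum_add_distrib]
          refine sum_congr rfl fun m _ => ?_
          rw [Nat.choose_succ_succ]
          have e1 : K + 1 - (m + 1) = K - m := by omega
          rw [e1]
          push_cast
          ring
        have h3 : (1 - σ) * ∑ m ∈ range (K + 1), (K.choose m : ℝ) * (1 - σ) ^ (K - m) * σ ^ m *
            f m = ∑ m ∈ range (K + 1), (K.choose (m + 1) : ℝ) * (1 - σ) ^ (K - m) * σ ^ (m + 1) *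
              f (m + 1) + (1 - σ) ^ (K + 1) * f 0 := by
          have h4 : (K.choose (K + 1) : ℝ) = 0 := by
            rw [Nat.choose_eq_zero_of_lt (Nat.lt_succ_self K)]
            simp
          have h5 : ∑ m ∈ range (K + 1), (K.choose (m + 1) : ℝ) * (1 - σ) ^ (K - m) *
              σ ^ (m + 1) * f (m + 1) = ∑ m ∈ range K, (K.choose (m + 1) : ℝ) *
              (1 - σ) ^ (K - m) * σ ^ (m + 1) * f (m + 1) := by
            rw [sum_range_succ, h4]
            simp
          rw [h5, sum_range_succ' _ K, mul_add, mul_sum]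
          congr 1
          · refine sum_congr rfl fun m hm => ?_
            rw [mem_range] at hm
            have e1 : K - m = (K - (m + 1)) + 1 := by omega
            rw [e1, pow_succ]
            ring
          · simp
            ring
        rw [sum_range_succ' _ (K + 1), h2, h3]
        simp
        ring
      rw [hrec, ih]
      have h5 : ∀ m : ℕ, a + b * ((m + 1 : ℕ) : ℝ) + c * (((m + 1 : ℕ) : ℝ) *
          (((m + 1 : ℕ) : ℝ) - 1)) = (a + b) + (b + 2 * c) * m + c * (m * (m - 1)) := by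
        intro m
        push_cast
        ring
      simp only [h5]
      rw [ih]
      push_cast
      ring
  have h2 := hmom K 1 (-(1 / 2)) (3 / 16)
  have h3 : BN K σ 0 ≤ ∑ m ∈ range (K + 1), (K.choose m : ℝ) * (1 - σ) ^ (K - m) * σ ^ m *
      (1 + -(1 / 2) * (m : ℝ) + 3 / 16 * (m * (m - 1))) := by
    unfold BN
    refine sum_le_sum fun m _ => ?_
    have h4 : 0 ≤ 1 - σ := by linarith
    apply mul_le_mul_of_nonneg_left _ (by positivity)
    rw [zero_add]
    have := s3n_bb_quad m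
    linarith
  rw [h2] at h3
  linarith

/-- `p ≤ g`, the hypothesis of `s3_core` -/
theorem s3n_hpg {D : ℕ} (hD : 4 ≤ D) : pp ((D : ℝ) - 1) (D - 1) ≤
    -(1 / 2) * Real.log ((D : ℝ) / (2 * (D - 1))) := by
  have hD' : (4 : ℝ) ≤ D := by exact_mod_cast hD
  have h1 := sum_gg_le (D - 1) (by omega)
  have e1 : ((D - 1 : ℕ) : ℝ) = (D : ℝ) - 1 := by
    rw [Nat.cast_sub (by omega)]
    simp
  rw [e1] at h1
  have h2 : pp ((D : ℝ) - 1) (D - 1) ≤ 1 / 2 * Real.log D / D := by
    unfold pp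
    rw [e1]
    have e2 : (D : ℝ) - 1 + 1 = D := by ring
    rw [e2] at h1 ⊢
    exact div_le_div_of_nonneg_right h1 (by linarith)
  have h3 : Real.log (D : ℝ) ≤ D * (2 / 5) := by
    have h4 := Real.log_le_sub_one_of_pos (x := (D : ℝ) / Real.exp 1) (by positivity)
    rw [Real.log_div (by positivity) (by positivity), Real.log_exp] at h4
    have h5 : (D : ℝ) / Real.exp 1 ≤ D * (2 / 5) := by
      rw [div_le_iff₀ (Real.exp_pos 1)]
      have := Real.exp_one_gt_d9
      nlinarith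
    linarith
  have h6 : 1 / 2 * Real.log D / D ≤ 1 / 5 := by
    rw [div_le_iff₀ (by linarith)]
    linarith
  have h7 : Real.log ((D : ℝ) / (2 * (D - 1))) ≤ -(2 / 5) := by
    have h8 : (D : ℝ) / (2 * (D - 1)) ≤ 2 / 3 := by
      rw [div_le_div_iff₀ (by linarith) (by norm_num)]
      linarith
    have h9 : Real.log ((D : ℝ) / (2 * (D - 1))) ≤ Real.log (2 / 3) :=
      Real.log_le_log (div_pos (by linarith) (by linarith)) h8
    have h10 : Real.log (2 / 3 : ℝ) ≤ -(2 / 5) := by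
      rw [Real.log_le_iff_le_exp (by norm_num)]
      have h11 := Real.exp_bound' (x := 2 / 5) (n := 3) (by norm_num) (by norm_num) (by norm_num)
      have h12 : Real.exp (2 / 5 : ℝ) ≤ 3 / 2 := by
        refine h11.trans ?_
        norm_num [sum_range_succ, Nat.factorial]
      rw [Real.exp_neg, show (2 / 3 : ℝ) = (3 / 2)⁻¹ by norm_num]
      exact inv_anti₀ (Real.exp_pos _) h12
    linarith
  linarith

end MP_a3e05c_co.KL
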